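import Mathlib
import Pool.Agent.H.MP_37af32_pr.A

namespace Pool.Agent.Results.MP_37af32_pr.Slow

open MeasureTheory Filter Topology BoundedContinuousFunction

/-- transition kernel of the PCA on `ℤ` with alphabet `Bool × Bool`, neighbourhood `N`
and local rule `f` -/
noncomputable def kern (N : Finset ℤ) (f : (N → Bool × Bool) → PMF (Bool × Bool))
    (x : ℤ → Bool × Bool) : Measure (ℤ → Bool × Bool) :=
  Measure.infinitePi (fun i => (f (fun n => x (i + n))).toMeasure)

/-- the Markov operator on measures -/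
noncomputable def Phi (N : Finset ℤ) (f : (N → Bool × Bool) → PMF (Bool × Bool))
    (μ : Measure (ℤ → Bool × Bool)) : Measure (ℤ → Bool × Bool) :=
  μ.bind (kern N f)

/-- cylinder set -/
def cyl (D : Finset ℤ) (w : ℤ → Bool × Bool) : Set (ℤ → Bool × Bool) :=
  {x | ∀ i ∈ D, x i = w i}

open Pool.Agent.H.MP_37af32_pr.A

def N0 : Finset ℤ := {-1, 0}

noncomputable def f0 (u : N0 → Bool × Bool) : PMF (Bool × Bool) :=
  (PMF.uniformOfFintype Bool).map fun b =>
    (((u ⟨0, by decide⟩).1 && !(u ⟨0, by decide⟩).2) ||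
      ((u ⟨-1, by decide⟩).1 && (u ⟨-1, by decide⟩).2), b)

theorem kern_eq : kern N0 f0 = K := by
  funext x
  have := Measure.infinitePi_map_pi (fun _ : ℤ => coin) (f := fun i b => (O x i, b))
    (fun i => measurable_of_countable _)
  rw [K, P]
  refine Eq.trans ?_ this.symm
  unfold kern
  congr 1
  funext i
  rw [f0, ← PMF.toMeasure_map _ _ (measurable_of_countable _)]
  simp [O, coin, sub_eq_add_neg]

theorem Phi_eq : Phi N0 f0 = F := by
  funext μ
  rw [Phi, kern_eq, F]

def x0 : ℤ → Bool × Bool := fun _ => (false, false)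

theorem cyl_eq (D : Finset ℤ) (w : ℤ → Bool × Bool) :
    cyl D w = S {o | ∀ i ∈ D, o i = (w i).1} D (fun i => (w i).2) := by
  ext x
  simp only [cyl, S, Set.mem_ofPred_eq, Prod.ext_iff]
  exact ⟨fun h => ⟨fun i hi => (h i hi).1, fun i hi => (h i hi).2⟩,
    fun h i hi => ⟨h.1 i hi, h.2 i hi⟩⟩

theorem pi_eq : K x0 = F (Measure.dirac x0) := by
  rw [F, Measure.dirac_bind mK]

theorem Ox0 : O x0 = fun _ => false := by
  funext i
  simp [O, x0]

theorem unif (D : Finset ℤ) (w : ℤ → Bool × Bool) (ε : ℝ) (hε : 0 < ε) :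
    ∃ T, ∀ t ≥ T, ∀ μ : Measure (ℤ → Bool × Bool), IsProbabilityMeasure μ →
      |(F^[t] μ).real (cyl D w) - (K x0).real (cyl D w)| ≤ ε := by
  obtain ⟨b, hb⟩ := (D.image Int.natAbs).exists_le
  obtain ⟨T, hT⟩ := small (-b) (2 * b + 1) ε hε
  refine ⟨T + 1, fun t ht μ hμ => ?_⟩
  obtain ⟨t, rfl⟩ : ∃ s, t = s + 1 := ⟨t - 1, by omega⟩
  have := probI μ t
  have h1 := hT t (by omega) μ
  have mT := mC D (fun i => (w i).1)
  rw [Function.iterate_succ_apply', pi_eq, cyl_eq, FS _ mT, FS _ mT, ← sub_mul, abs_mul]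
  have h2 : |(2⁻¹ : ℝ) ^ D.card| ≤ 1 := by
    rw [abs_of_nonneg (by positivity)]
    exact pow_le_one₀ (by norm_num) (by norm_num)
  have hb' : ∀ i ∈ D, -(b : ℤ) ≤ i ∧ i < -(b : ℤ) + (2 * b + 1 : ℕ) := by
    intro i hi
    have := hb _ (Finset.mem_image_of_mem _ hi)
    omega
  refine (mul_le_of_le_one_right (abs_nonneg _) h2).trans (le_trans ?_ h1)
  by_cases e : ∀ i ∈ D, (w i).1 = false
  · have a1 : q (Measure.dirac x0) {o | ∀ i ∈ D, o i = (w i).1} = 1 := by
      rw [q, measureReal_def, Measure.dirac_apply_of_mem]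
      · simp
      · intro i hi
        simp [Ox0, e i hi]
    have a2 : q (F^[t] μ) (Emp (-b) (2 * b + 1)) ≤ q (F^[t] μ) {o | ∀ i ∈ D, o i = (w i).1} :=
      qm _ fun o ho i hi => by rw [e i hi]; exact ho i (hb' i hi).1 (hb' i hi).2
    have a3 := q1 (F^[t] μ) {o | ∀ i ∈ D, o i = (w i).1}
    rw [a1, qc _ (mE _ _), abs_of_nonpos (by linarith)]
    linarith
  · push Not at e
    obtain ⟨i, hi, e⟩ := e
    have a1 : q (Measure.dirac x0) {o | ∀ i ∈ D, o i = (w i).1} = 0 := by
      rw [q, measureReal_def, Measure.dirac_apply' _ (mO mT), Set.indicator_of_notMem]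
      · simp
      · intro h
        have := h i hi
        rw [Ox0] at this
        exact e this.symm
    rw [a1, sub_zero, abs_of_nonneg (q0 _ _)]
    refine qm _ fun o ho h => e ?_
    rw [← ho i hi]
    exact h i (hb' i hi).1 (hb' i hi).2

theorem weak (μ : Measure (ℤ → Bool × Bool)) (hμ : IsProbabilityMeasure μ)
    (g : (ℤ → Bool × Bool) →ᵇ ℝ) :
    Tendsto (fun t => ∫ x, g x ∂(F^[t] μ)) atTop (𝓝 (∫ x, g x ∂(K x0))) := by
  classical
  let m : ℕ → ProbabilityMeasure (ℤ → Bool × Bool) := fun t => ⟨F^[t] μ, probI μ t⟩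
  let p : ProbabilityMeasure (ℤ → Bool × Bool) := ⟨K x0, inferInstance⟩
  have h : Tendsto m atTop (𝓝 p) := by
    apply IsPiSystem.tendsto_probabilityMeasure_of_tendsto_of_mem
      (S := {s | ∃ D w, s = cyl D w})
    · rintro _ ⟨D, w, rfl⟩ _ ⟨E, v, rfl⟩ ⟨z, h1, h2⟩
      refine ⟨D ∪ E, z, ?_⟩
      ext x
      simp only [cyl, Set.mem_inter_iff, Set.mem_ofPred_eq, Finset.mem_union]
      constructor
      · rintro ⟨a, b⟩ i (hi | hi)
        · rw [a i hi, h1 i hi]
        · rw [b i hi, h2 i hi]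
      · intro h
        exact ⟨fun i hi => by rw [h i (Or.inl hi), h1 i hi],
          fun i hi => by rw [h i (Or.inr hi), h2 i hi]⟩
    · rintro _ ⟨D, w, rfl⟩
      rw [cyl_eq]
      exact mS (mC _ _) _ _
    · intro u hu x hx
      obtain ⟨I, t, h1, h2⟩ := isOpen_pi_iff.mp hu x hx
      refine ⟨cyl I x, ⟨I, x, rfl⟩, ?_, fun y hy => h2 fun i hi => ?_⟩
      · have : cyl I x = Set.pi I (fun i => {x i}) := by ext; simp [cyl]
        rw [this]
        exact set_pi_mem_nhds I.finite_toSet fun i _ => (isOpen_discrete _).mem_nhds rfl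
      · rw [hy i hi]
        exact (h1 i hi).2
    · rintro _ ⟨D, w, rfl⟩
      rw [← NNReal.tendsto_coe, Metric.tendsto_atTop']
      intro ε hε
      obtain ⟨T, hT⟩ := unif D w (ε / 2) (half_pos hε)
      refine ⟨T, fun t ht => ?_⟩
      rw [Real.dist_eq]
      exact lt_of_le_of_lt (hT t ht.le μ hμ) (half_lt_self hε)
  exact ProbabilityMeasure.tendsto_iff_forall_integral_tendsto.mp h g

theorem result : ∃ (N : Finset ℤ) (f : (N → Bool × Bool) → PMF (Bool × Bool)),
    Measurable (kern N f) ∧ ∃ π : Measure (ℤ → Bool × Bool), IsProbabilityMeasure π ∧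
    Phi N f π = π ∧ (∀ ν, IsProbabilityMeasure ν → Phi N f ν = ν → ν = π) ∧
    (∀ μ, IsProbabilityMeasure μ → ∀ g : (ℤ → Bool × Bool) →ᵇ ℝ,
      Tendsto (fun t => ∫ x, g x ∂((Phi N f)^[t] μ)) atTop (𝓝 (∫ x, g x ∂π))) ∧
    (∀ D w, ∀ ε > 0, ∃ T, ∀ t ≥ T, ∀ μ, IsProbabilityMeasure μ →
      |((Phi N f)^[t] μ).real (cyl D w) - π.real (cyl D w)| ≤ ε) ∧
    ∃ μ, IsProbabilityMeasure μ ∧ ∃ D w, ∀ C γ : ℝ, 0 ≤ γ → γ < 1 →
      ∃ t, C * γ ^ t < |((Phi N f)^[t] μ).real (cyl D w) - π.real (cyl D w)| := by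
  refine ⟨N0, f0, kern_eq ▸ mK, K x0, inferInstance, ?_⟩
  rw [Phi_eq]
  refine ⟨?_, fun ν hν h => ?_, weak, unif, Measure.dirac fun _ => (true, false), inferInstance,
    {0}, fun _ => (true, false), fun C γ h0 h1 => ?_⟩
  · have h : K =ᵐ[K x0] fun _ => K x0 := by
      have ms : MeasurableSet {x | O x = O x0} := mO (measurableSet_singleton _)
      have : ∀ᵐ x ∂(K x0), O x = O x0 := by
        rw [K, ae_map_iff (mZ' _).aemeasurable ms]
        refine Eventually.of_forall fun ω => ?_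
        funext i
        simp [O, Z, x0]
      filter_upwards [this] with x hx
      unfold K Z
      rw [hx]
    rw [F, Measure.bind_congr_right h, Measure.bind_const]
    simp
  · apply ext_of_forall_integral_eq_of_IsFiniteMeasure
    intro g
    have := weak ν hν g
    simp only [Function.iterate_fixed h] at this
    exact tendsto_nhds_unique tendsto_const_nhds this
  · have h2 := ((tendsto_self_mul_const_pow_of_lt_one h0 h1).const_mul C).comp
      (tendsto_add_atTop_nat 1)
    rw [mul_zero] at h2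
    obtain ⟨t, ht⟩ := (h2.eventually (gt_mem_nhds (by norm_num : (0 : ℝ) < 1 / 2))).exists
    refine ⟨t + 1, ?_⟩
    have := probI (Measure.dirac fun _ : ℤ => (true, false)) t
    have e : {o : ℤ → Bool | ∀ i ∈ ({0} : Finset ℤ), o i = true} = (Emp 0 1)ᶜ := by
      ext o
      simp only [Finset.mem_singleton, forall_eq, Set.mem_ofPred_eq, Emp, Set.mem_compl_iff]
      constructor
      · intro h h'
        simp [h' 0 le_rfl (by norm_num)] at h
      · intro h
        by_contra h'
        apply h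
        intro j a1 a2
        rw [show j = 0 by omega]
        simpa using h'
    have a1 : q (Measure.dirac x0) (Emp 0 1)ᶜ = 0 := by
      rw [q, measureReal_def, Measure.dirac_apply' _ (mO (mE _ _).compl), Set.indicator_of_notMem]
      · simp
      · intro h
        apply h
        intro j _ _
        rw [Ox0]
    have a2 := lower t 0 1
    rw [Function.iterate_succ_apply', pi_eq, cyl_eq, FS _ (mC _ _), FS _ (mC _ _), e, a1,
      qc _ (mE _ _)]
    refine lt_of_lt_of_le ?_ (le_abs_self _)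
    simp only [Function.comp, Nat.cast_add, Nat.cast_one] at ht
    have t0 : (0 : ℝ) < t + 1 := by positivity
    have a3 : C * γ ^ (t + 1) < 1 / (t + 1) * 2⁻¹ := by
      rw [div_mul_eq_mul_div, lt_div_iff₀ t0]
      linarith
    simp only [Finset.card_singleton, pow_one] at a2 ⊢
    linarith

end Pool.Agent.Results.MP_37af32_pr.Slow
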